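import Pool.Agent.helper7.FI2.SpecH2

/-!
# Row `fi2:HLG` (MP_baa4d7_al)

The values `g χ u` of an orthogonal family of small norm are prime to `M`.
-/

set_option autoImplicit false

namespace Pool.Agent.FI2

open Pool.Agent.helper58.DC Pool.Agent.DI Pool.Agent.GR Pool.Agent.OB Pool.Agent.DR Pool.Agent.FI

theorem HLG_parseval {D : Type} [CommGroup D] [Fintype D] [Fintype (D →* ℂˣ)] (s : Finset (D →* ℂˣ)) (a : (D →* ℂˣ) → ℤ) :
    ∑ u : D, ‖∑ l ∈ s, (a l : ℂ) * lv l u‖ ^ 2 = (Nat.card D : ℝ) * ((∑ l ∈ s, a l ^ 2 : ℤ) : ℝ) := by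
  classical
  have key : ∑ u : D, (∑ l ∈ s, (a l : ℂ) * lv l u) * (starRingEnd ℂ) (∑ l ∈ s, (a l : ℂ) * lv l u) =
      (Nat.card D : ℂ) * ((∑ l ∈ s, a l ^ 2 : ℤ) : ℂ) := by
    have h1 : ∀ u : D, (∑ l ∈ s, (a l : ℂ) * lv l u) * (starRingEnd ℂ) (∑ l ∈ s, (a l : ℂ) * lv l u) =
        ∑ l ∈ s, ∑ l' ∈ s, (a l : ℂ) * (a l' : ℂ) * (lv l u * lv l' u⁻¹) := by
      intro u
      rw [map_sum, Finset.sum_mul_sum]
      refine Finset.sum_congr rfl fun l _ => Finset.sum_congr rfl fun l' _ => ?_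
      rw [map_mul, star_lv, map_intCast]
      ring
    rw [Finset.sum_congr rfl fun u _ => h1 u, Finset.sum_comm]
    rw [Int.cast_sum, Finset.mul_sum]
    refine Finset.sum_congr rfl fun l hl => ?_
    rw [Finset.sum_comm]
    have h2 : ∀ l' ∈ s, ∑ u : D, (a l : ℂ) * (a l' : ℂ) * (lv l u * lv l' u⁻¹) =
        if l = l' then (a l : ℂ) * (a l' : ℂ) * (Nat.card D : ℂ) else 0 := by
      intro l' _
      rw [← Finset.mul_sum, sum_lv_lv]
      split_ifs <;> simp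
    rw [Finset.sum_congr rfl h2, Finset.sum_ite_eq, if_pos hl]
    push_cast
    ring
  have h3 : ((∑ u : D, ‖∑ l ∈ s, (a l : ℂ) * lv l u‖ ^ 2 : ℝ) : ℂ) =
      (((Nat.card D : ℝ) * ((∑ l ∈ s, a l ^ 2 : ℤ) : ℝ) : ℝ) : ℂ) := by
    rw [Complex.ofReal_sum, Complex.ofReal_mul, Complex.ofReal_natCast, Complex.ofReal_intCast, ← key]
    refine Finset.sum_congr rfl fun u _ => ?_
    rw [Complex.mul_conj, Complex.normSq_eq_norm_sq]
  exact Complex.ofReal_injective h3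

theorem HLG (hHPU : HPU_stmt) (hLFI : LFI_stmt) (hLFR : LFR_stmt) : HLG_stmt := by
  classical
  intro p M D _ _ _ X _ Z I g hS hG hZ hIp hID χ hnorm u hu hM
  subst hZ
  have hF : LFx I (1 : D →* ℂˣ) := fun t _ v => by simp
  have hA0 : ∀ (χ : X) (l : D →* ℂˣ), ∃ a : ℤ,
      ∑ v, g χ v * (lv l v⁻¹ - lv (1 : D →* ℂˣ) v⁻¹) = (Nat.card D : ℂ) * a := by
    intro χ l
    refine hG.gi χ l 1 ?_
    intro z hz
    rw [Subgroup.mem_bot.1 hz, lv_one, lv_one]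
  choose A hA using hA0
  have hLA : LAi (⊥ : Subgroup D) 1 g A := fun χ l _ => hA χ l
  have hX : χ ∈ lX (⊥ : Subgroup D) 1 g := by
    refine mem_lX.2 ?_
    intro z hz v
    rw [Subgroup.mem_bot.1 hz, one_mul, lv_one, one_mul]
  have hov : ∀ l : D →* ℂˣ, l ∈ ov (⊥ : Subgroup D) 1 := by
    intro l
    refine mem_ov.2 ?_
    intro z hz
    rw [Subgroup.mem_bot.1 hz, lv_one, lv_one]
  have hovu : ov (⊥ : Subgroup D) 1 = (Finset.univ : Finset (D →* ℂˣ)) := Finset.eq_univ_of_forall hov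
  have hD0 : (Nat.card D : ℂ) ≠ 0 := Nat.cast_ne_zero.2 Nat.card_pos.ne'
  have hA1 : A χ 1 = 0 := by
    have h1 := hA χ 1
    rw [Finset.sum_eq_zero fun v _ => by rw [sub_self, mul_zero]] at h1
    have h2 := (mul_eq_zero.1 h1.symm).resolve_left hD0
    exact_mod_cast h2
  have hg : ∀ v : D, v ≠ 1 → g χ v = ∑ l : D →* ℂˣ, (A χ l : ℂ) * lv l v := by
    intro v hv
    rw [hLFI D X ⊥ g 1 A hLA χ hX v (fun h => hv (Subgroup.mem_bot.1 h)), hovu]
  have hg1 : g χ 1 = 0 := hG.g0 χ 1 (Subgroup.one_mem _)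
  have hne : ∃ l, A χ l ≠ 0 := by
    by_contra hcon
    push Not at hcon
    obtain ⟨v, hv, hgv⟩ := hG.gn χ
    apply hgv
    rw [hg v (fun h => hv (Subgroup.mem_bot.2 h))]
    exact Finset.sum_eq_zero fun l _ => by rw [hcon l]; simp
  have hAt : ∀ t ∈ I, ∀ l, A χ (tw t l) = A χ l := by
    intro t ht l
    have h1 := hA χ (tw t l)
    have h2 := hA χ l
    have h3 : ∑ v, g χ v * (lv (tw t l) v⁻¹ - lv (1 : D →* ℂˣ) v⁻¹) = ∑ v, g χ v * (lv l v⁻¹ - lv (1 : D →* ℂˣ) v⁻¹) := by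
      rw [← Equiv.sum_comp t.toEquiv (fun v => g χ v * (lv l v⁻¹ - lv (1 : D →* ℂˣ) v⁻¹))]
      refine Finset.sum_congr rfl fun v _ => ?_
      show g χ v * (lv l (t v⁻¹) - lv (1 : D →* ℂˣ) v⁻¹) = g χ (t v) * (lv l (t v)⁻¹ - lv (1 : D →* ℂˣ) (t v)⁻¹)
      rw [hG.gt χ t ht v, ← map_inv, lv_hone, lv_hone]
    rw [h3, h2] at h1
    have h4 := mul_left_cancel₀ hD0 h1
    exact_mod_cast h4.symm
  have : Fintype I := Fintype.ofFinite I
  let O : (D →* ℂˣ) → Finset (D →* ℂˣ) := fun l => Finset.univ.image (fun t : I => tw (t : MulAut D) l)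
  have hinj : ∀ l : D →* ℂˣ, l ≠ 1 → Function.Injective (fun t : I => tw (t : MulAut D) l) := by
    intro l hl t t' htt
    have h1 : tw ((t : MulAut D) * (t' : MulAut D)⁻¹) l = l := by
      have h2 : tw (t : MulAut D) l = tw (t' : MulAut D) l := htt
      rw [Pool.Agent.FI.tw_mul, h2, ← Pool.Agent.FI.tw_mul, mul_inv_cancel, Pool.Agent.FI.tw_one]
    have h3 := hLFR p D X ⊥ I g 1 l _ hG hF (hov l) hl (I.mul_mem t.2 (I.inv_mem t'.2)) h1
    exact Subtype.ext (mul_inv_eq_one.1 h3)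
  have hO : ∀ l : D →* ℂˣ, l ≠ 1 → (O l).card = Nat.card I := by
    intro l hl
    rw [Finset.card_image_of_injective _ (hinj l hl), Finset.card_univ, Nat.card_eq_fintype_card]
  have htw1 : ∀ t : MulAut D, tw t (1 : D →* ℂˣ) = 1 := fun t => lv_inj fun v => by
    rw [lv_tw, lv_hone, lv_hone]
  have hOi : ∀ l : D →* ℂˣ, l ≠ 1 → l ∈ O l ∧ (O l).card = Nat.card I ∧ 1 ∉ O l ∧ ∀ j ∈ O l, A χ j = A χ l := by
    intro l hl
    refine ⟨Finset.mem_image.2 ⟨1, Finset.mem_univ _, Pool.Agent.FI.tw_one l⟩, hO l hl, ?_, ?_⟩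
    · intro h
      obtain ⟨t, -, ht⟩ := Finset.mem_image.1 h
      exact hl (tw_injective (t : MulAut D) (ht.trans (htw1 _).symm))
    · intro j hj
      obtain ⟨t, -, rfl⟩ := Finset.mem_image.1 hj
      exact hAt t t.2 l
  have hcD : Fintype.card (D →* ℂˣ) = Nat.card D := by
    rw [← Nat.card_eq_fintype_card, card_lch]
  have hI1 : 1 ≤ Nat.card I := Nat.card_pos
  -- Parseval
  have hP := HLG_parseval (Finset.univ : Finset (D →* ℂˣ)) (A χ)
  have hsq : ∑ v, ‖g χ v‖ ^ 2 = (Nat.card D : ℝ) * ((∑ l, A χ l ^ 2 : ℤ) : ℝ) - ((∑ l, A χ l : ℤ) : ℝ) ^ 2 := by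
    rw [← hP, ← Finset.add_sum_erase Finset.univ (fun v => ‖g χ v‖ ^ 2) (Finset.mem_univ 1),
      ← Finset.add_sum_erase Finset.univ (fun v => ‖∑ l : D →* ℂˣ, (A χ l : ℂ) * lv l v‖ ^ 2) (Finset.mem_univ 1)]
    have e1 : ‖∑ l : D →* ℂˣ, (A χ l : ℂ) * lv l 1‖ ^ 2 = ((∑ l, A χ l : ℤ) : ℝ) ^ 2 := by
      have : ∑ l : D →* ℂˣ, (A χ l : ℂ) * lv l 1 = ((∑ l, A χ l : ℤ) : ℂ) := by
        rw [Int.cast_sum]
        exact Finset.sum_congr rfl fun l _ => by rw [lv_one, mul_one]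
      rw [this, Complex.norm_intCast, sq_abs]
    have e2 : ∑ v ∈ Finset.univ.erase (1 : D), ‖g χ v‖ ^ 2 =
        ∑ v ∈ Finset.univ.erase (1 : D), ‖∑ l : D →* ℂˣ, (A χ l : ℂ) * lv l v‖ ^ 2 :=
      Finset.sum_congr rfl fun v hv => by rw [hg v (Finset.ne_of_mem_erase hv)]
    rw [e1, e2, hg1, norm_zero]
    ring
  rw [hsq] at hnorm
  have hW : (Fintype.card (D →* ℂˣ) : ℤ) * ∑ l, A χ l ^ 2 - (∑ l, A χ l) ^ 2 < (Nat.card I : ℕ) * Fintype.card (D →* ℂˣ) := by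
    rw [hcD]
    exact_mod_cast hnorm
  rcases hHPU (D →* ℂˣ) 1 (A χ) (Nat.card I) O hI1 (by rw [hcD]; exact hID) hA1 hOi hW hne with
    ⟨b, hb0, hbn, hb⟩ | ⟨l₁, hl₁, e, he, hc1, hc2⟩
  · have h1 : g χ u = ((-b : ℤ) : ℂ) := by
      have h2 : ∀ l ∈ (Finset.univ : Finset (D →* ℂˣ)), (A χ l : ℂ) * lv l u =
          (b : ℂ) * lv l u - (if l = 1 then (b : ℂ) else 0) := by
        intro l _
        by_cases h3 : l = 1
        · subst h3
          rw [hA1, if_pos rfl, lv_hone]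
          push_cast
          ring
        · rw [if_neg h3, hb l h3, sub_zero]
      rw [hg u hu, Finset.sum_congr rfl h2, Finset.sum_sub_distrib, ← Finset.mul_sum, sum_hlv, if_neg hu,
        Finset.sum_ite_eq' Finset.univ (1 : D →* ℂˣ), if_pos (Finset.mem_univ _)]
      push_cast
      ring
    rw [h1, InM.intCast hS, dvd_neg] at hM
    obtain ⟨k, hk⟩ := hM
    have hk0 : k ≠ 0 := fun h => hb0 (by rw [hk, h, mul_zero])
    have hk1 : 1 ≤ k ^ 2 := by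
      have : 0 < k ^ 2 := by positivity
      omega
    have h2 : (Nat.card I : ℤ) < (p : ℤ) ^ 2 := by exact_mod_cast hIp
    have h3 : (p : ℤ) ^ 2 ≤ b ^ 2 := by
      rw [hk, mul_pow]
      have : (0 : ℤ) ≤ (p : ℤ) ^ 2 := by positivity
      nlinarith
    exact absurd (lt_of_le_of_lt (h3.trans hbn) h2) (lt_irrefl _)
  · have h0 : ∀ l ∈ (Finset.univ : Finset (D →* ℂˣ)), l ∉ O l₁ → (A χ l : ℂ) * lv l u = 0 := by
      intro l _ hlO
      rw [hc2 l hlO]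
      simp
    have h1 : g χ u = ∑ l ∈ O l₁, (e : ℂ) * lv l u := by
      rw [hg u hu, ← Finset.sum_subset (Finset.subset_univ _) h0]
      exact Finset.sum_congr rfl fun l hl => by rw [hc1 l hl]
    have h2 : InM M (∑ l ∈ O l₁, (e : ℂ) * (lv l u - 1)) :=
      InM.sum hS (O l₁) fun l _ => InM.mul_left hS (IntAt.intCast hS e) (lv_modM hS hG.pg l u)
    have h3 : g χ u - ∑ l ∈ O l₁, (e : ℂ) * (lv l u - 1) = ((e * (Nat.card I : ℤ) : ℤ) : ℂ) := by
      rw [h1, ← Finset.sum_sub_distrib, Finset.sum_congr rfl fun l _ => by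
        rw [← mul_sub, sub_sub_cancel, mul_one], Finset.sum_const, hO l₁ hl₁, nsmul_eq_mul]
      push_cast
      ring
    have h4 := InM.sub hS hM h2
    rw [h3, InM.intCast hS] at h4
    refine hG.cop ?_
    have h5 : (p : ℤ) ∣ (Nat.card I : ℤ) := by
      rcases he with he | he
      · rwa [he, one_mul] at h4
      · rw [he, neg_one_mul] at h4
        exact (dvd_neg.1 h4)
    exact_mod_cast h5

end Pool.Agent.FI2
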